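import Pool.Agent.X32.Uni.MulZ

/-!
# Primes `n` for which exactly the prescribed numbers `a n + 1` are almost primes

Let `a_1, ..., a_k ≥ 1` be ARBITRARY multipliers (admissible or not), `z ≥ k + 1`, and let `n₀` be an integer without prime
factors `≤ z`; let `g_l` be the `z`-smooth part of `a_l n₀ + 1` (for an admissible set one can choose `n₀` such that all
`g_l = 1`; in general `g_l` contains the unavoidable factors). Then every interval `(A, B]` with `B ≤ X`, `B - A ≥ θ X`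
contains at least `κ (B - A) V` primes `n > X ^ (1/t)`, `n ≡ n₀` modulo `Q` (`Q` any `z`-smooth number), such that
* `a_l n + 1 = g_l w_l` for all `l`, where `w_l` is a product of at most `t` primes `> X ^ (1/t)`,
* `w_j` is a product of at most two primes `> X ^ (1/9)`,
* for all the other multipliers `b ≤ R` the number `b n + 1` is the `z`-smooth part of `b n₀ + 1` times a number with a
  prime factor in `(z, C]`.
`V` is the product of `1 - ω(p) / p` over the primes of `(z, X]`, `ω(p)` the number of the zeros of `x ∏ (a_l x + 1)` modulo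
`p`; `(B - A) V` is the conjectured order of magnitude of the number of the primes `n` for which all `w_l` are primes.
For every colouring almost all of these `n` are covered by disjoint monochromatic progressions with small differences.
-/

set_option autoImplicit false

namespace Pool.Agent.Results.MP_bca3e5_nt.ExactMultipliers

open Finset

variable {k : ℕ}

/-- the `z`-smooth part of `a`: the product of the prime powers `p ^ v_p(a)`, `p ≤ z` -/
def smooth (z : ℕ) (a : ℤ) : ℕ := ∏ p ∈ (range (z + 1)).filter Nat.Prime, p ^ a.natAbs.factorization p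

/-- `|v| > 1`, and `|v|` is a product of at most `r` primes, all of them larger than `y` -/
def Almost (r : ℕ) (y : ℝ) (v : ℤ) : Prop :=
  1 < |v| ∧ v.natAbs.primeFactorsList.length ≤ r ∧ ∀ q : ℕ, q.Prime → (q : ℤ) ∣ v → y < q

/-- `ω(p)`: the number of the zeros of `x ∏ (a_l x + 1)` modulo `p` -/
noncomputable def omega (a : Fin k → ℕ) (p : ℕ) : ℕ :=
  ((range p).filter (fun x : ℕ => (p : ℤ) ∣ (x : ℤ) * ∏ l, ((a l : ℤ) * x + 1))).card

/-- the product of `1 - ω(p) / p` over the primes of `(z, X]` -/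
noncomputable def V (a : Fin k → ℕ) (z X : ℕ) : ℝ := ∏ p ∈ (Ioc z X).filter Nat.Prime, (1 - (omega a p : ℝ) / p)

open Classical in
/-- the primes of `(A, B]` described above -/
noncomputable def Good (a : Fin k → ℕ) (j : Fin k) (R n₀ z Q C t X A B : ℕ) : Finset ℕ :=
  (Ioc A B).filter (fun n : ℕ => n ≡ n₀ [MOD Q] ∧ (n.Prime ∧ (X : ℝ) ^ (1 / (t : ℝ)) < n ∧ ∃ w : Fin k → ℤ,
    (∀ l, (a l : ℤ) * n + 1 = smooth z ((a l : ℤ) * n₀ + 1) * w l ∧ Almost t ((X : ℝ) ^ (1 / (t : ℝ))) (w l)) ∧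
    Almost 2 ((X : ℝ) ^ (1 / 9 : ℝ)) (w j)) ∧
    ∀ b : ℕ, 1 ≤ b → b ≤ R → (∀ l, a l ≠ b) →
      ∃ w : ℤ, (b : ℤ) * n + 1 = smooth z ((b : ℤ) * n₀ + 1) * w ∧ ∃ q : ℕ, q.Prime ∧ z < q ∧ q ≤ C ∧ (q : ℤ) ∣ w)

/-- the terms `a, a + b, ..., a + (s - 1) b` of the progression `τ = (a, b)` -/
def terms (s : ℕ) (τ : ℕ × ℕ) : Finset ℕ := (range s).image (fun i => τ.1 + i * τ.2)

theorem result (a : Fin k → ℕ) (ha : ∀ l, 1 ≤ a l) (j : Fin k) (R n₀ z Q : ℕ) (hz : k + 1 ≤ z)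
    (hn₀ : ∀ p : ℕ, p.Prime → p ≤ z → ¬ p ∣ n₀) (hQ : 1 ≤ Q) (hQz : ∀ p : ℕ, p.Prime → p ∣ Q → p ≤ z) :
    ∃ C t : ℕ, 1 ≤ t ∧ ∃ κ : ℝ, 0 < κ ∧ ∀ (s r : ℕ) (θ δ : ℝ), 1 ≤ s → 0 < θ → 0 < δ → ∃ c X₀ : ℕ, ∀ X : ℕ, X₀ ≤ X →
      κ / Real.log X ^ (k + 1) ≤ V a z X ∧ ∀ A B : ℕ, B ≤ X → θ * X ≤ (B : ℝ) - A →
        κ * ((B : ℝ) - A) * V a z X ≤ ((Good a j R n₀ z Q C t X A B).card : ℝ) ∧
        ∀ χ : ℕ → Fin r, ∃ P : Finset (ℕ × ℕ),
          (∀ τ ∈ P, 1 ≤ τ.2 ∧ (τ.2 : ℝ) ≤ Real.log X ^ c ∧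
            ∀ l < s, τ.1 + l * τ.2 ∈ Good a j R n₀ z Q C t X A B ∧ χ (τ.1 + l * τ.2) = χ τ.1) ∧
          (P : Set (ℕ × ℕ)).PairwiseDisjoint (terms s) ∧
          (((Good a j R n₀ z Q C t X A B \ P.biUnion (terms s)).card : ℕ) : ℝ) ≤ δ * ((B : ℝ) - A) * V a z X :=
  Pool.Agent.X32.Uni.mulM a ha j R n₀ z Q hz hn₀ hQ hQz

end Pool.Agent.Results.MP_bca3e5_nt.ExactMultipliers
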