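import Pool.Agent.X69.Ric.Pack

/-!
The tuples `(n, c 1 n + 1, ..., c s n + 1)`, `s ≥ 2`, without small prime factors. Limit points of the vectors of consecutive normalised gaps.
-/

set_option autoImplicit false

namespace Pool.Agent.Results.MP_bca3e5_nt.GapLimitVectors

open Filter MeasureTheory

/-- The `s + 1` numbers `n, c 1 * n + 1, ..., c s * n + 1`. -/
def f {s : ℕ} (c : Fin s → ℕ) (n : ℕ) : Fin (s + 1) → ℕ := Fin.cons n (fun j => c j * n + 1)

/-- `Many g A`: for some `c > 0` and all large `X`, the set `A` has at least `c X / (log X) ^ g` elements in `[1, X]`. -/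
def Many (g : ℕ) (A : Set ℕ) : Prop :=
  ∃ c : ℝ, 0 < c ∧ ∀ᶠ X : ℕ in atTop, c * X / Real.log X ^ g ≤ ((A ∩ Set.Icc 1 X).ncard : ℝ)

/-- No prime factor of a component of `f n` is less than `n ^ δ`. -/
def Rough {g : ℕ} (f : ℕ → Fin g → ℕ) (δ : ℝ) (n : ℕ) : Prop :=
  ∀ i, ∀ p : ℕ, p.Prime → p ∣ f n i → (n : ℝ) ^ δ ≤ p

/-- The `n ≥ 1` such that all the components of `f n` have at most `r` prime factors, counted with multiplicity,
none of them less than `n ^ (1 / r)`. -/
def Almost {g : ℕ} (f : ℕ → Fin g → ℕ) (r : ℕ) : Set ℕ :=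
  {n | 1 ≤ n ∧ ∀ i, ArithmeticFunction.cardFactors (f n i) ≤ r ∧
    ∀ p : ℕ, p.Prime → p ∣ f n i → (n : ℝ) ^ (1 / (r : ℝ)) ≤ p}

/-- The vector of `m` consecutive normalised gaps `(a (k+i+1) - a (k+i)) / (log a (k+i)) ^ g`, `0 ≤ i < m`, of the
set `A = {a 0 < a 1 < ...}`. -/
noncomputable def gaps (g : ℕ) (A : Set ℕ) (m k : ℕ) : Fin m → ℝ := fun i =>
  ((Nat.nth (· ∈ A) (k + i + 1) : ℝ) - Nat.nth (· ∈ A) (k + i)) / Real.log (Nat.nth (· ∈ A) (k + i)) ^ g

/-- The set of the limit points in `ℝ ^ m` of the vectors of `m` consecutive normalised gaps of `A`. -/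
def LimitVectors (g : ℕ) (A : Set ℕ) (m : ℕ) : Set (Fin m → ℝ) := {t | MapClusterPt t atTop (gaps g A m)}

theorem result : ∀ (s : ℕ) (c : Fin s → ℕ), 2 ≤ s → (∀ j, 1 ≤ c j) → Function.Injective c →
    (∀ p : ℕ, p.Prime → ∃ n : ℕ, ¬ p ∣ n * ∏ j, (c j * n + 1)) →
    (∀ A : Set ℕ, ∀ δ : ℝ, 0 < δ → (∀ n ∈ A, Rough (f c) δ n) → Many (s + 1) A →
      ∀ m : ℕ, 1 ≤ m → 0 < volume (LimitVectors (s + 1) A m)) ∧
    ∃ r : ℕ, 1 ≤ r ∧ Many (s + 1) (Almost (f c) r) ∧ ∀ m : ℕ, 1 ≤ m → 0 < volume (LimitVectors (s + 1) (Almost (f c) r) m) := by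
  intro s a hs ha hinj hadm
  refine Pool.Agent.X69.Ric.pack_gaps (by omega) (a := Fin.cons 1 (fun j : Fin s => (a j : ℤ))) (b := Fin.cons 0 (fun _ : Fin s => (1 : ℤ))) (f := f a)
    ?_ ?_ ?_ ?_
  · intro i
    refine Fin.cases ?_ (fun j => ?_) i
    · simp
    · have h1 := ha j
      simp only [Fin.cons_succ]
      exact_mod_cast h1
  · intro i j
    refine Fin.cases ?_ (fun i' => ?_) i
    · refine Fin.cases ?_ (fun j' => ?_) j
      · intro h
        exact absurd rfl h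
      · intro _
        simp
    · refine Fin.cases ?_ (fun j' => ?_) j
      · intro _
        simp
      · intro hij h
        simp only [Fin.cons_succ, mul_one] at h
        exact hij (congrArg Fin.succ (hinj (by exact_mod_cast h)))
  · intro p hp
    obtain ⟨n, hn⟩ := hadm p hp
    have hpI := Nat.prime_iff_prime_int.1 hp
    refine ⟨(n : ℤ), ?_⟩
    intro i
    refine Fin.cases ?_ (fun j => ?_) i
    · simp only [Fin.cons_zero, one_mul, add_zero]
      intro h
      exact hn (Dvd.dvd.mul_right (by exact_mod_cast h) _)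
    · simp only [Fin.cons_succ]
      intro h
      refine hn (Dvd.dvd.mul_left (dvd_trans (?_ : p ∣ a j * n + 1) (Finset.dvd_prod_of_mem (fun j => a j * n + 1) (Finset.mem_univ j))) _)
      exact_mod_cast h
  · intro n hn i
    refine Fin.cases ?_ (fun j => ?_) i
    · simp [f]
    · simp [f]

end Pool.Agent.Results.MP_bca3e5_nt.GapLimitVectors
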