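import Pool.Agent.X15.SysS.Iso

/-!
# Prime values of `a_i n + c_i` along isolated primes `n`, for most constant terms

For all positive integers `a_1, ..., a_s` the lower bound `c x / (log x) ^ (s + 1)` of the question holds for the forms
`a_i n + c_i` and for all but an arbitrarily small proportion of the vectors `(c_1, ..., c_s)` of constant terms without
local obstruction; moreover the primes `n` can be taken isolated: no other prime at distance at most `Λ log n`.

The theorem rests on the library development Pool.Agent.TH882.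
-/

set_option autoImplicit false

open Finset Filter Topology

namespace Pool.Agent.Results.MP_bca3e5_nt.MostConstantTerms

/-- `n` is a prime, and no other prime is at distance at most `R` from `n`. -/
def IsolatedPrime (R : ℝ) (n : ℕ) : Prop := n.Prime ∧ ∀ q : ℕ, q.Prime → |(q : ℝ) - n| ≤ R → q = n

/-- No local obstruction: for every prime `l` there is an integer `y` such that `l` divides neither `y` nor any
`a_i y + c_i`. -/
def Admissible {s : ℕ} (a c : Fin s → ℕ) : Prop :=
  ∀ l : ℕ, l.Prime → ∃ y : ℤ, ¬ (l : ℤ) ∣ y ∧ ∀ i, ¬ (l : ℤ) ∣ a i * y + c i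

/-- The primes `n ≤ x` without another prime at distance at most `Λ log n` for which all `a_i n + c_i` are prime. -/
def arguments {s : ℕ} (a c : Fin s → ℕ) (Λ : ℝ) (x : ℕ) : Set ℕ :=
  {n : ℕ | n ≤ x ∧ IsolatedPrime (Λ * Real.log n) n ∧ ∀ i, (a i * n + c i).Prime}

/-- The vectors of integers `1 ≤ c_i ≤ K x` without local obstruction and with fewer than `δ x / (log x) ^ (s + 1)` such
primes. -/
def exceptions {s : ℕ} (a : Fin s → ℕ) (K : ℕ) (Λ δ : ℝ) (x : ℕ) : Set (Fin s → ℕ) :=
  {c : Fin s → ℕ | (∀ i, 1 ≤ c i ∧ c i ≤ K * x) ∧ Admissible a c ∧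
    ((arguments a c Λ x).ncard : ℝ) < δ * (x / Real.log x ^ (s + 1))}

/-- **Linear forms along isolated primes, for most constant terms.** Let `a_1, ..., a_s` be positive integers, `K ≥ 0`,
`Λ > 0` and `κ > 0`. There are `δ > 0` and `x₀` such that for all `x ≥ x₀` and for all vectors `(c_1, ..., c_s)` of
integers `1 ≤ c_i ≤ K x` without local obstruction, with at most `κ x ^ s` exceptions, there are at least
`δ x / (log x) ^ (s + 1)` primes `n ≤ x`, isolated at the distance `Λ log n`, for which all `a_i n + c_i` are prime. -/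
theorem result (s : ℕ) (a : Fin s → ℕ) (ha : ∀ i, 0 < a i) (K : ℕ) (Λ κ : ℝ) (hΛ : 0 < Λ) (hκ : 0 < κ) :
    ∃ δ : ℝ, 0 < δ ∧ ∃ x₀ : ℕ, ∀ x : ℕ, x₀ ≤ x →
      ((exceptions a K Λ δ x).ncard : ℝ) ≤ κ * (x : ℝ) ^ s := by
  classical
  have haz : ∀ i, (a i : ℤ) ≠ 0 := fun i => by
    have := ha i
    omega
  have hgd : ∀ i, (Polynomial.C (a i : ℤ) * Polynomial.X).natDegree = 1 := fun i =>
    Polynomial.natDegree_C_mul_X _ (haz i)
  obtain ⟨δ, hδ, x₀, h⟩ := Pool.Agent.X15.SysS.iso_sys (fun _ : Fin s => (1 : ℤ))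
    (fun _ => Or.inl rfl) (fun i => Polynomial.C (a i : ℤ) * Polynomial.X)
    (fun i => by rw [hgd i])
    (fun i => by
      rw [Polynomial.leadingCoeff_C_mul_X]
      have := ha i
      omega) Λ hΛ K κ hκ
  refine ⟨δ, hδ, x₀, fun x hx => ?_⟩
  have h1 := h x hx
  have e0 : ∏ j : Fin s, (x : ℝ) ^ (Polynomial.C (a j : ℤ) * Polynomial.X).natDegree =
      (x : ℝ) ^ s := by
    rw [prod_congr rfl fun j _ => by rw [hgd j, pow_one], prod_const, card_univ, Fintype.card_fin]
  rw [e0] at h1
  refine le_trans ?_ h1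
  apply Nat.cast_le.2
  rw [← Set.ncard_coe_finset]
  apply Set.ncard_le_ncard _ (finite_toSet _)
  rintro k ⟨hk1, hk2, hk3⟩
  rw [mem_coe, mem_filter, Fintype.mem_piFinset]
  refine ⟨fun j => ?_, ?_, lt_of_le_of_lt ?_ hk3⟩
  · rw [mem_Icc, hgd j, pow_one]
    exact hk1 j
  · intro l hl
    obtain ⟨y, hy1, hy2⟩ := hk2 l hl
    refine ⟨y, hy1, fun j hd => hy2 j ?_⟩
    rw [one_mul, Polynomial.eval_mul, Polynomial.eval_C, Polynomial.eval_X, add_comm] at hd
    exact hd
  · apply Nat.cast_le.2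
    rw [← Set.ncard_coe_finset]
    apply Set.ncard_le_ncard _ ((Set.finite_Iic x).subset fun n hn => hn.1)
    intro q hq
    rw [mem_coe, mem_filter, mem_Icc] at hq
    obtain ⟨⟨hq1, hq2⟩, hq3, hq4⟩ := hq
    refine ⟨hq2, hq3, fun i => ?_⟩
    have h5 := hq4 i
    rw [one_mul, Polynomial.eval_mul, Polynomial.eval_C, Polynomial.eval_X] at h5
    have h6 : ((k i : ℤ) + (a i : ℤ) * (q : ℤ)).toNat = a i * q + k i := by
      have : ((a i * q : ℕ) : ℤ) = (a i : ℤ) * q := by push_cast; ring
      omega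
    rwa [h6] at h5

end Pool.Agent.Results.MP_bca3e5_nt.MostConstantTerms
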